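import Pool.Agent.Work.MP_9999b5_ms.Defs

set_option autoImplicit false

namespace Pool.Agent.Work.MaxSums.helper93Recursion

open Finset Pool.Agent.Work.MaxSums

theorem double {ι : Type} [DecidableEq ι] (A : Finset ι) (x : ι → ℝ) (k : ℕ) :
    ∑ T ∈ A.powersetCard k, pos x (A \ T) k
      = pos x A k * (A.card - k).choose k := by
  classical
  have h1 : ∀ T ∈ A.powersetCard k, pos x (A \ T) k
      = ∑ S ∈ (A.powersetCard k).filter (fun S => 0 < ∑ i ∈ S, x i),
          (if Disjoint S T then 1 else 0) := by
    intro T _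
    rw [← Finset.card_filter]
    unfold pos
    congr 1
    ext S
    simp only [Finset.mem_filter, Finset.mem_powersetCard, Finset.subset_sdiff]
    tauto
  rw [Finset.sum_congr rfl h1, Finset.sum_comm]
  have h2 : ∀ S ∈ (A.powersetCard k).filter (fun S => 0 < ∑ i ∈ S, x i),
      ∑ T ∈ A.powersetCard k, (if Disjoint S T then 1 else 0) = (A.card - k).choose k := by
    intro S hS
    obtain ⟨hS1, _⟩ := Finset.mem_filter.1 hS
    obtain ⟨hSA, hSc⟩ := Finset.mem_powersetCard.1 hS1
    rw [← Finset.card_filter]
    have : (A.powersetCard k).filter (fun T => Disjoint S T) = (A \ S).powersetCard k := by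
      ext T
      simp only [Finset.mem_filter, Finset.mem_powersetCard, Finset.subset_sdiff,
        disjoint_comm (a := S)]
      tauto
    rw [this, Finset.card_powersetCard, Finset.card_sdiff_of_subset hSA, hSc]
  rw [Finset.sum_congr rfl h2, Finset.sum_const, smul_eq_mul]
  rfl

theorem holds : Recursion := by
  intro k n φ hkn hφ hW ι _ A x hA hinj hsum
  classical
  have hd := double A x k
  have hAk : A.card - k = n := by omega
  rw [hAk] at hd
  have hd' : ∑ T ∈ A.powersetCard k, (pos x (A \ T) k : ℝ)
      = (pos x A k : ℝ) * (n.choose k : ℝ) := by exact_mod_cast hd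
  have hlow : ∑ T ∈ (A.powersetCard k).filter (fun T => ¬ 0 < ∑ i ∈ T, x i),
        φ * (n.choose k : ℝ) ≤ ∑ T ∈ A.powersetCard k, (pos x (A \ T) k : ℝ) := by
    refine le_trans (Finset.sum_le_sum (g := fun T => (pos x (A \ T) k : ℝ)) ?_)
      (Finset.sum_le_sum_of_subset_of_nonneg (Finset.filter_subset _ _)
        (fun i _ _ => Nat.cast_nonneg _))
    intro T hT
    obtain ⟨hT1, hT2⟩ := Finset.mem_filter.1 hT
    obtain ⟨hTA, hTc⟩ := Finset.mem_powersetCard.1 hT1
    refine hW ι (A \ T) x ?_ ?_ ?_
    · rw [Finset.card_sdiff_of_subset hTA, hTc, hAk]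
    · exact hinj.mono (by simp)
    · have := Finset.sum_sdiff (f := x) hTA
      push Not at hT2
      linarith
  rw [Finset.sum_const, nsmul_eq_mul] at hlow
  have hcard : ((A.powersetCard k).filter (fun T => ¬ 0 < ∑ i ∈ T, x i)).card + pos x A k
      = (n + k).choose k := by
    have := Finset.card_filter_add_card_filter_not (s := A.powersetCard k)
      (fun T => 0 < ∑ i ∈ T, x i)
    rw [Finset.card_powersetCard, hA] at this
    unfold pos
    omega
  have hcard' : (((A.powersetCard k).filter (fun T => ¬ 0 < ∑ i ∈ T, x i)).card : ℝ)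
      = ((n + k).choose k : ℝ) - pos x A k := by
    have : (((A.powersetCard k).filter (fun T => ¬ 0 < ∑ i ∈ T, x i)).card : ℝ)
      + pos x A k = ((n + k).choose k : ℝ) := by exact_mod_cast hcard
    linarith
  rw [hcard', hd'] at hlow
  have hC : (0 : ℝ) < (n.choose k : ℝ) := by exact_mod_cast Nat.choose_pos hkn
  have h1 : (((n + k).choose k : ℝ) - pos x A k) * φ ≤ pos x A k := by
    have : (((n + k).choose k : ℝ) - pos x A k) * φ * (n.choose k : ℝ)
      ≤ pos x A k * (n.choose k : ℝ) := by linarith
    exact le_of_mul_le_mul_right this hC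
  rw [div_mul_eq_mul_div, div_le_iff₀ (by linarith)]
  linarith

end Pool.Agent.Work.MaxSums.helper93Recursion
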