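import Pool.Agent.Work.MP_9999b5_ms.Defs

set_option autoImplicit false

namespace Pool.Agent.Work.MaxSums.helper93FewWild

open Finset Pool.Agent.Work.MaxSums

theorem card_exch {ι : Type} [DecidableEq ι] {S : Finset ι} {s w : ι} (hs : s ∈ S)
    (hw : w ∉ S) : (insert w (S.erase s)).card = S.card := by
  have h1 : w ∉ S.erase s := fun h => hw (Finset.mem_of_mem_erase h)
  rw [Finset.card_insert_of_notMem h1, Finset.card_erase_of_mem hs]
  have : 0 < S.card := Finset.card_pos.2 ⟨s, hs⟩
  omega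

theorem sum_exch {ι : Type} [DecidableEq ι] (x : ι → ℝ) {S : Finset ι} {s w : ι} (hs : s ∈ S)
    (hw : w ∉ S) : ∑ i ∈ insert w (S.erase s), x i = ∑ i ∈ S, x i - x s + x w := by
  have h1 : w ∉ S.erase s := fun h => hw (Finset.mem_of_mem_erase h)
  rw [Finset.sum_insert h1]
  have h2 := Finset.add_sum_erase S x hs
  linarith

theorem holds (hE : Exchange) : FewWild := by
  intro ι _ B x k K q hK hk hx
  classical
  set wild : Finset ι → Prop :=
    fun S => K < ∑ i ∈ S, x i ∧ q < ∑ i ∈ S, x i ^ 2 with hwild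
  have hBk : (0 : ℝ) ≤ (B.card : ℝ) - k := by
    have : (k : ℝ) ≤ B.card := by exact_mod_cast hk
    linarith
  have key := hE ι B k (fun S s _ => if wild S then x s ^ 2 else 0)
  -- left side
  have hL : (((B.powersetCard k).filter wild).card : ℝ) * q * (B.card - k)
      ≤ ∑ S ∈ B.powersetCard k, ∑ s ∈ S, ∑ w ∈ B \ S, (if wild S then x s ^ 2 else 0) := by
    have e1 : (((B.powersetCard k).filter wild).card : ℝ) * q * (B.card - k)
        = ∑ S ∈ B.powersetCard k, (if wild S then q * ((B.card : ℝ) - k) else 0) := by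
      rw [← Finset.sum_filter, Finset.sum_const, nsmul_eq_mul]
      ring
    rw [e1]
    refine Finset.sum_le_sum fun S hS => ?_
    obtain ⟨hSB, hSc⟩ := Finset.mem_powersetCard.1 hS
    by_cases h : wild S
    · simp only [h, if_true]
      have hc : ((B \ S).card : ℝ) = (B.card : ℝ) - k := by
        rw [Finset.card_sdiff_of_subset hSB, hSc, Nat.cast_sub hk]
      have e2 : ∑ s ∈ S, ∑ _w ∈ B \ S, x s ^ 2 = ((B.card : ℝ) - k) * ∑ s ∈ S, x s ^ 2 := by
        rw [Finset.mul_sum]
        refine Finset.sum_congr rfl fun s _ => ?_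
        rw [Finset.sum_const, nsmul_eq_mul, hc]
      rw [e2, mul_comm]
      exact mul_le_mul_of_nonneg_left h.2.le hBk
    · simp [h]
  -- right side
  have hR : ∑ S ∈ B.powersetCard k, ∑ s ∈ S, ∑ w ∈ B \ S,
        (if wild (insert w (S.erase s)) then x w ^ 2 else 0)
      ≤ (pos x B k : ℝ) * (k * ∑ i ∈ B, x i ^ 2) := by
    have e1 : (pos x B k : ℝ) * (k * ∑ i ∈ B, x i ^ 2)
        = ∑ S ∈ B.powersetCard k,
            (if 0 < ∑ i ∈ S, x i then (k * ∑ i ∈ B, x i ^ 2) else 0) := by
      rw [← Finset.sum_filter, Finset.sum_const, nsmul_eq_mul]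
      rfl
    rw [e1]
    refine Finset.sum_le_sum fun S hS => ?_
    obtain ⟨hSB, hSc⟩ := Finset.mem_powersetCard.1 hS
    by_cases h : 0 < ∑ i ∈ S, x i
    · rw [if_pos h]
      have hb : ∀ s ∈ S, ∑ w ∈ B \ S, (if wild (insert w (S.erase s)) then x w ^ 2 else 0)
          ≤ ∑ i ∈ B, x i ^ 2 := by
        intro s _
        calc ∑ w ∈ B \ S, (if wild (insert w (S.erase s)) then x w ^ 2 else 0)
            ≤ ∑ w ∈ B \ S, x w ^ 2 := by
              refine Finset.sum_le_sum fun w _ => ?_
              split_ifs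
              · exact le_rfl
              · positivity
          _ ≤ ∑ i ∈ B, x i ^ 2 :=
              Finset.sum_le_sum_of_subset_of_nonneg Finset.sdiff_subset
                (fun i _ _ => by positivity)
      calc ∑ s ∈ S, ∑ w ∈ B \ S, (if wild (insert w (S.erase s)) then x w ^ 2 else 0)
          ≤ ∑ _s ∈ S, ∑ i ∈ B, x i ^ 2 := Finset.sum_le_sum hb
        _ = k * ∑ i ∈ B, x i ^ 2 := by rw [Finset.sum_const, nsmul_eq_mul, hSc]
    · rw [if_neg h]
      refine le_of_eq (Finset.sum_eq_zero fun s hs => Finset.sum_eq_zero fun w hw => ?_)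
      rw [if_neg]
      intro hw'
      apply h
      obtain ⟨hwB, hwS⟩ := Finset.mem_sdiff.1 hw
      have h1 := hw'.1
      rw [sum_exch x hs hwS] at h1
      have h2 := (abs_le.1 (hx s (hSB hs))).1
      have h3 := (abs_le.1 (hx w hwB)).2
      linarith
  calc _ ≤ _ := hL
    _ = _ := key
    _ ≤ _ := hR

end Pool.Agent.Work.MaxSums.helper93FewWild
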